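import Pool.Agent.H.MP_2da123_co.helper61.Assembly

/-!
# The exact value of `d(G)` for every finite graph `G`

`joinDims G` is the set of all `d` such that `G + K_n` is `d`-polytopal for some `n ≥ 1`, and
`joinDim G` is the explicit value: `0` for the null graph, `1` for `K_1`, `2` for `K_2`, `3` for
Hamiltonian outerplanar graphs, paths with at least three vertices and two isolated vertices, and
`4` in all other cases.
-/

namespace Pool.Agent.Results.MP_2da123_co.JoinDimension

open Pool.Agent.H.MP_2da123_co

theorem result (V : Type) [Fintype V] (G : SimpleGraph V) : IsLeast (joinDims G) (joinDim G) :=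
  S61.isLeast_joinDim V G

end Pool.Agent.Results.MP_2da123_co.JoinDimension
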